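import Pool.Agent.TS.L.Com

/-!
# TS/P-Cs: subgroups of index divisible by a power of `2`
-/

namespace Pool.Agent.TS

open Pool.Agent.H73.DU

variable {G : Type} [Group G]

/-- the relative indices in a group of exponent `2` modulo `N` are powers of `2` -/
private theorem cs_pow (N M : Subgroup G) [N.Normal] [N.FiniteIndex]
    (hsq : ∀ e ∈ M, e * e ∈ N) : ∃ k, N.relIndex M = 2 ^ k := by
  have hn : (N.subgroupOf M).Normal := inferInstance
  have hf : (N.subgroupOf M).FiniteIndex := inferInstance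
  have hfin : Finite (M ⧸ N.subgroupOf M) := Subgroup.finite_quotient_of_finiteIndex
  have hp : IsPGroup 2 (M ⧸ N.subgroupOf M) := by
    intro x
    refine ⟨1, ?_⟩
    obtain ⟨e, rfl⟩ := QuotientGroup.mk'_surjective (N.subgroupOf M) x
    rw [← map_pow]
    refine (QuotientGroup.eq_one_iff _).2 ?_
    rw [Subgroup.mem_subgroupOf]
    have h := hsq e e.2
    have h2 : ((e ^ 2 ^ 1 : M) : G) = (e : G) * (e : G) := by
      push_cast
      rw [pow_two]
    rw [h2]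
    exact h
  obtain ⟨k, hk⟩ := IsPGroup.iff_card.1 hp
  exact ⟨k, hk⟩

private theorem cs_even (N H H' M : Subgroup G) [N.Normal] [N.FiniteIndex]
    (hsq : ∀ e ∈ M, e * e ∈ N) (hN : N ≤ H') (hH : H ≤ M) {u : G} (hu : u ∈ H) (hu' : u ∉ H') :
    2 ∣ H'.relIndex H := by
  obtain ⟨k, hk⟩ := cs_pow N H fun e he => hsq e (hH he)
  have h1 : H'.relIndex H ∣ 2 ^ k := by
    rw [← hk]
    exact Subgroup.relIndex_dvd_of_le_left H hN
  obtain ⟨i, -, hi⟩ := (Nat.dvd_prime_pow Nat.prime_two).1 h1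
  have h2 : H'.relIndex H ≠ 1 := fun h => hu' (Subgroup.relIndex_eq_one.1 h hu)
  rcases i with _ | i
  · exact absurd hi (by simpa using h2)
  · rw [hi]
    exact Dvd.intro_left (2 ^ i) (pow_succ 2 i).symm

theorem cs_step (M N N' : Subgroup G) [hn : N.Normal] [N'.Normal] [N'.FiniteIndex]
    (hN'N : N' ≤ N) (hNM : N ≤ M) (hsq : ∀ e ∈ M, e * e ∈ N') (σ u : G) (huN : u ∈ N)
    (hu : σ * u * σ⁻¹ * u⁻¹ ∉ N') (j : ℕ)
    (ih : ∀ H : Subgroup G, N ≤ H → (∀ e ∈ H, e ∈ M → σ * e * σ⁻¹ * e⁻¹ ∈ N) →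
      2 ^ j ∣ H.relIndex M) (H' : Subgroup G) (hH' : N' ≤ H')
    (hc : ∀ e ∈ H', e ∈ M → σ * e * σ⁻¹ * e⁻¹ ∈ N') : 2 ^ (j + 1) ∣ H'.relIndex M := by
  have h1 := ih (H' ⊔ N) le_sup_right (by
    intro e he heM
    obtain ⟨h, hh, n, hn', rfl⟩ := Subgroup.mem_sup_of_normal_right.1 he
    have h2 : h ∈ M := by
      have h3 := M.mul_mem heM (M.inv_mem (hNM hn'))
      rwa [mul_inv_cancel_right] at h3
    have h4 := hN'N (hc h hh h2)
    have h5 : σ * n * σ⁻¹ * n⁻¹ ∈ N := N.mul_mem (hn.conj_mem n hn' σ) (N.inv_mem hn')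
    have h6 := N.mul_mem h4 (hn.conj_mem _ h5 h)
    have e : σ * h * σ⁻¹ * h⁻¹ * (h * (σ * n * σ⁻¹ * n⁻¹) * h⁻¹) =
        σ * (h * n) * σ⁻¹ * (h * n)⁻¹ := by group
    rwa [e] at h6)
  have huM := hNM huN
  have h2 : u ∉ H' ⊓ M := fun h => hu (hc u h.1 huM)
  have h3 : u ∈ (H' ⊔ N) ⊓ M := ⟨Subgroup.mem_sup_right huN, huM⟩
  have hN'M : N' ≤ M := hN'N.trans hNM
  have h4 := cs_even N' ((H' ⊔ N) ⊓ M) (H' ⊓ M) M hsq (le_inf hH' hN'M) inf_le_right h3 h2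
  have h5 := Subgroup.relIndex_mul_relIndex (H' ⊓ M) ((H' ⊔ N) ⊓ M) M
    (inf_le_inf_right M le_sup_left) inf_le_right
  rw [← Subgroup.inf_relIndex_right H' M, ← h5, pow_succ, mul_comm]
  rw [← Subgroup.inf_relIndex_right (H' ⊔ N) M] at h1
  exact mul_dvd_mul h4 h1

theorem cs_index (NM N H : Subgroup G) [NM.Normal] [N.FiniteIndex] (hNM : N ≤ NM)
    (hNH : N ≤ H) : H.relIndex NM ∣ H.index := by
  have h0 : (H ⊓ NM).FiniteIndex := Subgroup.finiteIndex_of_le (le_inf hNH hNM)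
  have h1 := Subgroup.relIndex_mul_relIndex (H ⊓ NM) H (H ⊔ NM) inf_le_left le_sup_left
  have h2 := Subgroup.relIndex_mul_relIndex (H ⊓ NM) NM (H ⊔ NM) inf_le_right le_sup_right
  rw [Subgroup.inf_relIndex_left, ← Subgroup.relIndex_sup_right H NM] at h1
  rw [Subgroup.inf_relIndex_right] at h2
  have h3 : NM.relIndex (H ⊔ NM) ≠ 0 := by
    have h4 : NM.FiniteIndex := Subgroup.finiteIndex_of_le hNM
    intro h5
    exact h4.index_ne_zero (by
      rw [← Subgroup.relIndex_mul_index (le_sup_right : NM ≤ H ⊔ NM), h5, zero_mul])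
  have h4 : H.relIndex (H ⊔ NM) = H.relIndex NM := by
    refine Nat.eq_of_mul_eq_mul_left (Nat.pos_of_ne_zero h3) ?_
    rw [h1, ← h2, mul_comm]
  rw [← h4]
  exact Subgroup.relIndex_dvd_index_of_le le_sup_left

end Pool.Agent.TS
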