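import Pool.Agent.TS.L.Ext
import Pool.Agent.TS.P.Spl
import Pool.Agent.TS.P.Cs

/-!
# TS/P-Ext: the extension `N` with killers of index divisible by a power of `2`
-/

namespace Pool.Agent.TS

open NumberField IsDedekindDomain Pool.Agent.HWR Pool.Agent.QD Pool.Agent.H73.DU
  Pool.Agent.H73.AL Pool.Agent.LD Pool.Agent.MX

theorem exists_Np {V T : Finset ℕ} (hTp : ∀ p ∈ T, p.Prime) (h2 : 2 ∈ T) (NM : Subgroup GQ)
    [NM.Normal] (hNM : IsOpen (NM : Set GQ)) (j : ℕ) :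
    ∃ N : Subgroup GQ, N.Normal ∧ IsOpen (N : Set GQ) ∧ N ≤ NM ∧ (∀ e ∈ NM, e * e ∈ N) ∧
      N.index ≤ NM.index * 2 ^ ((j + 1) * NM.index) ∧
      (∀ (p : ℕ) [Fact p.Prime], p ∈ V → p ∉ T → ∃ u ∈ decomp ℚ_[p] (emb p), u ∈ NM ∧
        ∀ σ : GQ, σ * u * σ⁻¹ * u⁻¹ ∈ N → ∃ d ∈ decomp ℚ_[p] (emb p), d⁻¹ * σ ∈ NM) ∧
      ∀ σ : GQ, σ ∉ NM → ∀ H : Subgroup GQ, N ≤ H →
        (∀ e ∈ H, e ∈ NM → σ * e * σ⁻¹ * e⁻¹ ∈ N) → 2 ^ j ∣ H.relIndex NM := by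
  induction j with
  | zero =>
    obtain ⟨N, h1, h3, h4, h5, h6, h7⟩ := exists_N (V := V) hTp h2 NM hNM
    refine ⟨N, h1, h3, h4, h5, ?_, h7, fun σ _ H _ _ => ?_⟩
    · rw [zero_add, one_mul]
      exact h6
    · rw [pow_zero]
      exact one_dvd _
  | succ j ih =>
    obtain ⟨N, hNn, hNo, hNle, hNsq, hNi, hNu, hNj⟩ := ih
    obtain ⟨l, hl, hlT, hlN⟩ := exists_spl T N hNo
    obtain ⟨N1, h1n, h1o, h1le, h1sq, h1i, h1u⟩ := exists_N (V := {l}) hTp h2 NM hNM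
    obtain ⟨u, hu, huM, hσ⟩ := h1u l (Finset.mem_singleton_self l) hlT
    have hfM : NM.FiniteIndex := (nice_rat T).finiteIndex hNM
    have hf1 : N1.FiniteIndex := (nice_rat T).finiteIndex h1o
    have hfN : N.FiniteIndex := (nice_rat T).finiteIndex hNo
    have ho' : IsOpen ((N ⊓ N1 : Subgroup GQ) : Set GQ) := hNo.inter h1o
    have hf' : (N ⊓ N1).FiniteIndex := (nice_rat T).finiteIndex ho'
    have hn' : (N ⊓ N1).Normal := inferInstance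
    refine ⟨N ⊓ N1, hn', ho', inf_le_left.trans hNle, fun e he => ⟨hNsq e he, h1sq e he⟩, ?_,
      ?_, ?_⟩
    · have hpos : 0 < NM.index := Nat.pos_of_ne_zero hfM.index_ne_zero
      have e1 : N1.relIndex NM ≤ 2 ^ NM.index := by
        have e2 := Subgroup.relIndex_mul_index h1le
        rw [← e2, mul_comm] at h1i
        exact Nat.le_of_mul_le_mul_left h1i hpos
      have e3 : N1.relIndex NM ≠ 0 := by
        intro e4
        apply hf1.index_ne_zero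
        rw [← Subgroup.relIndex_mul_index h1le, e4, zero_mul]
      have e4 : (N ⊓ N1).relIndex N ≤ 2 ^ NM.index := by
        rw [Subgroup.inf_relIndex_left]
        exact (Subgroup.relIndex_le_of_le_right hNle e3).trans e1
      rw [← Subgroup.relIndex_mul_index (inf_le_left : N ⊓ N1 ≤ N)]
      calc (N ⊓ N1).relIndex N * N.index
          ≤ 2 ^ NM.index * (NM.index * 2 ^ ((j + 1) * NM.index)) := Nat.mul_le_mul e4 hNi
        _ = NM.index * 2 ^ ((j + 1 + 1) * NM.index) := by ring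
    · intro p _ hpV hpT
      obtain ⟨v, hv, hvM, hv'⟩ := hNu p hpV hpT
      exact ⟨v, hv, hvM, fun σ h => hv' σ h.1⟩
    · intro σ hσM H hH hc
      refine cs_step NM N (N ⊓ N1) inf_le_left hNle (fun e he => ⟨hNsq e he, h1sq e he⟩) σ u
        (hlN hu) ?_ j (hNj σ hσM) H hH hc
      intro h
      obtain ⟨d, hd, hd'⟩ := hσ σ h.2
      apply hσM
      have h3 := NM.mul_mem (hNle (hlN hd)) hd'
      rwa [mul_inv_cancel_left] at h3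

/-- the killers, with index divisible by `2 ^ j` -/
theorem killer_p {V T : Finset ℕ} (j : ℕ) (NM N : Subgroup GQ) [NM.Normal] [N.Normal]
    (hN : IsOpen (N : Set GQ)) (hNM : N ≤ NM) (hsq : ∀ e ∈ NM, e * e ∈ N)
    (hu : ∀ (p : ℕ) [Fact p.Prime], p ∈ V → p ∉ T → ∃ u ∈ decomp ℚ_[p] (emb p), u ∈ NM ∧
        ∀ σ : GQ, σ * u * σ⁻¹ * u⁻¹ ∈ N → ∃ d ∈ decomp ℚ_[p] (emb p), d⁻¹ * σ ∈ NM)
    (hj : ∀ σ : GQ, σ ∉ NM → ∀ H : Subgroup GQ, N ≤ H →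
        (∀ e ∈ H, e ∈ NM → σ * e * σ⁻¹ * e⁻¹ ∈ N) → 2 ^ j ∣ H.relIndex NM) (t : GQ) :
    ∃ (a q : ℕ) (H : Subgroup GQ), ¬ 2 ∣ q ∧ (t ^ 2 ^ a) ^ q ∈ N ∧ N ≤ H ∧
      ¬ (2 : ℤ) ∣ pc H (Subgroup.zpowers t) ∧
      (∀ u ∈ H, u * t ^ 2 ^ a * u⁻¹ ∈ Subgroup.zpowers (t ^ 2 ^ a) ⊔ N) ∧
      (t ^ 2 ^ a ∈ NM ∨ 2 ^ j ∣ H.index) ∧
      (EvG V T H ∨ ∃ (p : ℕ) (_ : Fact p.Prime), p ∈ V ∧ p ∉ T ∧ ∃ (g : GQ),
        ∃ d ∈ decomp ℚ_[p] (emb p), d⁻¹ * (g⁻¹ * t ^ 2 ^ a * g) ∈ NM) := by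
  obtain ⟨a, q, H, hq, ht, hNH, hodd, hn, hor⟩ := killer NM N hN hsq hu t
  refine ⟨a, q, H, hq, ht, hNH, hodd, hn, ?_, hor⟩
  by_cases htM : t ^ 2 ^ a ∈ NM
  · exact Or.inl htM
  · right
    have hfN : N.FiniteIndex := (nice_rat T).finiteIndex hN
    refine (hj _ htM H hNH fun e he heM => ?_).trans (cs_index NM N H hNM hNH)
    have h1 := com NM N hsq (u := e) (t' := t ^ 2 ^ a) (g := 1) heM hq ht (by
      have e2 : (1 : GQ) * e * 1⁻¹ = e := by group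
      rw [e2]
      exact hn e he)
    have e3 : (1 : GQ)⁻¹ * t ^ 2 ^ a * 1 = t ^ 2 ^ a := by group
    rwa [e3] at h1

end Pool.Agent.TS
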