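import Pool.Agent.TS.C.Cpx
import Pool.Agent.TS.P.Ext

/-!
# TS/P-Alg: Theorem TS with degrees divisible by a power of `2`

As TS/A/Alg and TS/C/Cpx, with the killers of TS/P/Ext: for `t' = t ^ 2 ^ a` in `NM` the function
`h = mark K - mark F` is even at `zpowers t` (`h (zpowers t') = n - n = 0`), and for the other `t`
the index of the killer is divisible by `2 ^ j`.
-/

namespace Pool.Agent.TS

open NumberField IsDedekindDomain Pool.Agent.HWR Pool.Agent.H73.DU Pool.Agent.H73.AL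
  Pool.Agent.LD

/-- bound for the degrees -/
def bP (j n : ℕ) : ℕ :=
  (bM n * 2 ^ bM n ^ 2) * 2 ^ ((j + 1) * (bM n * 2 ^ bM n ^ 2))

theorem bP_mono {j n n' : ℕ} (h : n ≤ n') : bP j n ≤ bP j n' := by
  have h1 : bM n ≤ bM n' := Nat.factorial_le (Nat.pow_le_pow_left h 2)
  have h2 : bM n * 2 ^ bM n ^ 2 ≤ bM n' * 2 ^ bM n' ^ 2 :=
    Nat.mul_le_mul h1 (Nat.pow_le_pow_right (by norm_num) (Nat.pow_le_pow_left h1 2))
  exact Nat.mul_le_mul h2 (Nat.pow_le_pow_right (by norm_num) (Nat.mul_le_mul_left _ h2))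

theorem le_bP (j : ℕ) {n : ℕ} (hn : 0 < n) : n ≤ bP j n := by
  have h1 : n ≤ bM n := by
    unfold bM
    have h2 : n ≤ n ^ 2 := by nlinarith
    exact h2.trans (Nat.self_le_factorial _)
  have h2 : bM n ≤ bM n * 2 ^ bM n ^ 2 := Nat.le_mul_of_pos_right _ (by positivity)
  exact (h1.trans h2).trans (Nat.le_mul_of_pos_right _ (by positivity))

private theorem ap_one {NM : Subgroup GQ} (K F : NF) (hFn : Module.finrank ℚ F.F =
    Module.finrank ℚ K.F) (hNMt : ∀ g ∈ NM, (∀ χ : K.F →+* AlgebraicClosure ℚ, g • χ = χ) ∧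
      ∀ χ : F.F →+* AlgebraicClosure ℚ, g • χ = χ) (t : GQ) (a : ℕ) (ht : t ^ 2 ^ a ∈ NM) :
    (2 : ℤ) ∣ (mark K.F - mark F.F) (Subgroup.zpowers t) := by
  have e1 : ∀ X : NF, (∀ g ∈ NM, ∀ χ : X.F →+* AlgebraicClosure ℚ, g • χ = χ) →
      mark X.F (Subgroup.zpowers (t ^ 2 ^ a)) = (Module.finrank ℚ X.F : ℤ) := by
    intro X hX
    rw [cx_mark, ← cx_card]
    congr 1
    exact Nat.card_congr (Equiv.subtypeUnivEquiv fun χ => hX _ ht χ)
  have e4 := cx_two K (fun g hg => (hNMt g hg).1) t a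
  have e5 := cx_two F (fun g hg => (hNMt g hg).2) t a
  have e6 := e1 K (fun g hg => (hNMt g hg).1)
  have e7 := e1 F (fun g hg => (hNMt g hg).2)
  rw [Pi.sub_apply]
  have e8 : mark K.F (Subgroup.zpowers t) - mark F.F (Subgroup.zpowers t) =
      (mark K.F (Subgroup.zpowers t) - mark K.F (Subgroup.zpowers (t ^ 2 ^ a))) -
      (mark F.F (Subgroup.zpowers t) - mark F.F (Subgroup.zpowers (t ^ 2 ^ a))) := by
    rw [e6, e7, hFn]
    ring
  rw [e8]
  exact dvd_sub e4 e5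

private def AP (T : Finset ℕ) (Q : NF → Prop) (n B : ℕ) (f : Subgroup GQ → ℤ) : Prop :=
  ∃ A B' Y Z : List NF,
    (∀ X ∈ Y ++ Z, n ∣ Module.finrank ℚ X.F ∧ Module.finrank ℚ X.F ≤ B) ∧
    (∀ X ∈ A ++ B', n ∣ Module.finrank ℚ X.F ∧ Module.finrank ℚ X.F ≤ B ∧
      (Q X ∨ ∃ (X0 : NF) (_ : Algebra X0.F X.F), Module.finrank X0.F X.F = 2)) ∧
    ∀ U ∈ famT T, f U + (A.map fun F => mark F.F U).sum + 2 * (Y.map fun F => mark F.F U).sum =
      (B'.map fun F => mark F.F U).sum + 2 * (Z.map fun F => mark F.F U).sum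

private def APs (T : Finset ℕ) (Q : NF → Prop) (n B : ℕ) : AddSubgroup (Subgroup GQ → ℤ) where
  carrier := {f | AP T Q n B f}
  zero_mem' := ⟨[], [], [], [], by simp, by simp, by simp⟩
  add_mem' := by
    rintro f g ⟨A, B1, Y, Z, h1, h2, h3⟩ ⟨A', B1', Y', Z', h1', h2', h3'⟩
    refine ⟨A ++ A', B1 ++ B1', Y ++ Y', Z ++ Z', ?_, ?_, ?_⟩
    · intro X hX
      simp only [List.mem_append] at hX h1 h1'
      rcases hX with (h | h) | (h | h)
      · exact h1 X (Or.inl h)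
      · exact h1' X (Or.inl h)
      · exact h1 X (Or.inr h)
      · exact h1' X (Or.inr h)
    · intro X hX
      simp only [List.mem_append] at hX h2 h2'
      rcases hX with (h | h) | (h | h)
      · exact h2 X (Or.inl h)
      · exact h2' X (Or.inl h)
      · exact h2 X (Or.inr h)
      · exact h2' X (Or.inr h)
    · intro U hU
      have e1 := h3 U hU
      have e2 := h3' U hU
      simp only [List.map_append, List.sum_append, Pi.add_apply]
      linarith
  neg_mem' := by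
    rintro f ⟨A, B1, Y, Z, h1, h2, h3⟩
    refine ⟨B1, A, Z, Y, ?_, ?_, ?_⟩
    · intro X hX
      simp only [List.mem_append] at hX h1
      exact h1 X hX.symm
    · intro X hX
      simp only [List.mem_append] at hX h2
      exact h2 X hX.symm
    · intro U hU
      have e1 := h3 U hU
      simp only [Pi.neg_apply]
      linarith

private theorem ap_lists {T : Finset ℕ} (Q : NF → Prop) (E : Subgroup GQ → Prop)
    (hQE : ∀ (H : Subgroup GQ) (F : NF) (ψ : F.F →+* AlgebraicClosure ℚ), E H → stb ψ = H →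
      Module.finrank ℚ F.F = H.index → Q F) (N : Subgroup GQ) [N.FiniteIndex]
    (hNo : IsOpen (N : Set GQ)) (n B : ℕ) (hB : N.index ≤ B) :
    MC (CN N n) (famT T) ⊔ RC {H | H ∈ CN N n ∧ E H} ≤ APs T Q n B := by
  have hidx : ∀ H : Subgroup GQ, N ≤ H → H.index ≤ B := fun H h =>
    (Nat.le_of_dvd (Nat.pos_of_ne_zero Subgroup.FiniteIndex.index_ne_zero)
      (Subgroup.index_dvd_of_le h)).trans hB
  have hop : ∀ H : Subgroup GQ, N ≤ H → IsOpen (H : Set GQ) := fun H h =>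
    Subgroup.isOpen_mono h hNo
  refine sup_le ?_ ?_
  · unfold MC
    rw [AddSubgroup.closure_le]
    rintro f (⟨H, hH, rfl⟩ | ⟨H, hH, ⟨Y, hY, hY2⟩, rfl⟩ | hf)
    · obtain ⟨F, ψ, -, hm, hi⟩ := exists_nf H (hop H hH.1)
      refine ⟨[], [], [], [F], ?_, by simp, ?_⟩
      · intro X hX
        simp only [List.nil_append, List.mem_singleton] at hX
        subst hX
        rw [hi]
        exact ⟨hH.2, hidx H hH.1⟩
      · intro U _
        simp [hm]
    · obtain ⟨X0, ψ0, hs0, -, hi0⟩ := exists_nf Y (hop Y (hH.1.trans hY))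
      have hi2 : H.index = 2 * (stb ψ0).index := by
        rw [hs0, ← hY2]
        exact (Subgroup.relIndex_mul_index hY).symm
      obtain ⟨F, hA, ψ, -, -, hm, hfr⟩ := exists_fld X0 ψ0 H (hop H hH.1) (by rw [hs0]; exact hY)
        hi2
      have hi : Module.finrank ℚ F.F = H.index := by
        rw [← Module.finrank_mul_finrank ℚ X0.F F.F, hfr, hi0, hi2, hs0, mul_comm]
      refine ⟨[], [F], [], [], by simp, ?_, ?_⟩
      · intro X hX
        simp only [List.nil_append, List.mem_singleton] at hX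
        subst hX
        rw [hi]
        exact ⟨hH.2, hidx H hH.1, Or.inr ⟨X0, hA, hfr⟩⟩
      · intro U _
        simp [hm]
    · exact ⟨[], [], [], [], by simp, by simp, fun U hU => by simp [hf U hU]⟩
  · unfold RC
    rw [AddSubgroup.closure_le]
    rintro f ⟨H, ⟨hH, hE⟩, rfl⟩
    obtain ⟨F, ψ, hs, hm, hi⟩ := exists_nf H (hop H hH.1)
    refine ⟨[], [F], [], [], by simp, ?_, ?_⟩
    · intro X hX
      simp only [List.nil_append, List.mem_singleton] at hX
      subst hX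
      have h5 := hQE H X ψ hE hs hi
      rw [hi]
      exact ⟨hH.2, hidx H hH.1, Or.inl h5⟩
    · intro U _
      simp [hm]

theorem alg_p {T : Finset ℕ} (V : Finset ℕ) (hTp : ∀ p ∈ T, p.Prime) (h2 : 2 ∈ T) (j : ℕ)
    (K : NF) :
    ∃ (F : NF) (A B Y Z : List NF), InfinitePlace.nrComplexPlaces F.F = 0 ∧
      Module.finrank ℚ F.F = Module.finrank ℚ K.F ∧
      Rel T (K :: (A ++ (Y ++ Y))) (F :: (B ++ (Z ++ Z))) ∧
      (∀ X ∈ Y ++ Z, Module.finrank ℚ K.F ∣ Module.finrank ℚ X.F ∧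
        Module.finrank ℚ X.F ≤ bP j (Module.finrank ℚ K.F)) ∧
      ∀ X ∈ A ++ B, Module.finrank ℚ K.F ∣ Module.finrank ℚ X.F ∧
        Module.finrank ℚ X.F ≤ bP j (Module.finrank ℚ K.F) ∧
        ((EvV V T X.F ∧ 2 ^ j ∣ Module.finrank ℚ X.F ∧
            (InfinitePlace.nrRealPlaces K.F = 0 → IsEmpty (X.F →+* ℝ))) ∨
          ∃ (X0 : NF) (_ : Algebra X0.F X.F), Module.finrank X0.F X.F = 2) := by
  classical
  obtain ⟨i, c, hc⟩ := Pool.Agent.THF.exists_cx
  obtain ⟨F, hF0, hFn, hFm⟩ := exists_TR (V ∪ T) K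
  obtain ⟨N0, hN0n, hN0o, hN0i, hN0t⟩ := exists_NM K F (Module.finrank ℚ K.F) rfl hFn
  have hfin0 : N0.FiniteIndex := (nice_rat T).finiteIndex hN0o
  obtain ⟨N1, hN1o, hN1n, h10, hN1i, hcent⟩ := Pool.Agent.TF2.cent2 hc N0 hN0o hN0n hfin0
  obtain ⟨N, hNn, hNo, hNle, hNsq, hNi, hNu, hNj⟩ := exists_Np (V := V) hTp h2 N1 hN1o j
  have hfin : N.FiniteIndex := (nice_rat T).finiteIndex hNo
  have hh : mark K.F - mark F.F ∈ RC (CN N (Module.finrank ℚ K.F)) := by
    obtain ⟨JK, -, hJKN, hJKi, hJKm⟩ := exists_over N0 K (fun g hg => (hN0t g hg).1)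
    obtain ⟨JF, -, hJFN, hJFi, hJFm⟩ := exists_over N0 F (fun g hg => (hN0t g hg).2)
    refine AddSubgroup.sub_mem _ ?_ ?_
    · exact AddSubgroup.subset_closure ⟨JK, ⟨(hNle.trans h10).trans hJKN, by rw [hJKi]⟩, hJKm⟩
    · exact AddSubgroup.subset_closure
        ⟨JF, ⟨(hNle.trans h10).trans hJFN, by rw [hJFi, hFn]⟩, hJFm⟩
  obtain ⟨E, hE⟩ : ∃ E : Subgroup GQ → Prop, E = fun H => EvG V T H ∧ 2 ^ j ∣ H.index ∧
    (InfinitePlace.nrRealPlaces K.F = 0 → ∀ g : GQ, g⁻¹ * c * g ∉ H) := ⟨_, rfl⟩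
  have hU : ∀ U ∈ famT T, (2 : ℤ) ∣ (mark K.F - mark F.F) U ∨
      ∃ H : Subgroup GQ, N ≤ H ∧ E H ∧ ¬ (2 : ℤ) ∣ pc H U := by
    rintro U (⟨t, rfl⟩ | ⟨l, hl, a, hlT, hU⟩)
    · obtain ⟨a, q, H, hq, htq, hNH, hodd, hnorm, hjn, hor⟩ :=
        killer_p j N1 N hNo hNle hNsq hNu hNj t
      rcases hjn with htN | hjn
      · exact Or.inl (ap_one K F hFn (fun g hg => hN0t g (h10 hg)) t a htN)
      by_cases hcH : InfinitePlace.nrRealPlaces K.F = 0 ∧ ∃ g : GQ, g⁻¹ * c * g ∈ H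
      · left
        obtain ⟨hK, g, hg⟩ := hcH
        exact cx_par hc K F hK hF0 hFn N0 N1 N hN0t h10 hNle hcent t a q hq htq g (hnorm _ hg)
      · rcases hor with h | ⟨p, hp, hpV, hpT, g, d, hd, hgd⟩
        · refine Or.inr ⟨H, hNH, ?_, hodd⟩
          rw [hE]
          exact ⟨h, hjn, fun hK g hg => hcH ⟨hK, g, hg⟩⟩
        · exact Or.inl (cx_even K F N1 hFm (fun g hg => hN0t g (h10 hg)) t a p hp hpV g d hd hgd)
    · left
      rw [Pi.sub_apply, hFm l (Finset.mem_union_right _ hlT) U ⟨a, hU⟩, sub_self]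
      exact dvd_zero _
  have hKm := lemK N (Module.finrank ℚ K.F) E
    (by
      intro H H' h h'
      rw [hE] at h' ⊢
      exact ⟨EvG.mono h'.1 h, h'.2.1.trans (Subgroup.index_dvd_of_le h),
        fun hK g hg => h'.2.2 hK g (h hg)⟩)
    (by
      intro H b h
      rw [hE] at h ⊢
      refine ⟨EvG.cj h.1 b, ?_, fun hK g hg => ?_⟩
      · have h3 : (cj b H).index = H.index := by
          unfold cj
          exact Subgroup.index_map_of_bijective (MulAut.conj b⁻¹).bijective H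
        rw [h3]
        exact h.2.1
      · obtain ⟨u, hu, hu'⟩ := mem_cj_iff.1 hg
        have h3 : u = (g * b⁻¹)⁻¹ * c * (g * b⁻¹) := by
          have h4 : u = b * (b⁻¹ * u * b) * b⁻¹ := by group
          rw [h4, hu']
          group
        exact h.2.2 hK _ (h3 ▸ hu)) (famT T) hh hU
  have hB : N.index ≤ bP j (Module.finrank ℚ K.F) := by
    unfold bP
    have h1 : N1.index ≤ bM (Module.finrank ℚ K.F) * 2 ^ bM (Module.finrank ℚ K.F) ^ 2 :=
      hN1i.trans (Nat.mul_le_mul hN0i (Nat.pow_le_pow_right (by norm_num)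
        (Nat.pow_le_pow_left hN0i 2)))
    exact hNi.trans (Nat.mul_le_mul h1 (Nat.pow_le_pow_right (by norm_num)
      (Nat.mul_le_mul_left _ h1)))
  obtain ⟨A, B, Y, Z, h1, h3, hrel⟩ := ap_lists
    (fun X => EvV V T X.F ∧ 2 ^ j ∣ Module.finrank ℚ X.F ∧
      (InfinitePlace.nrRealPlaces K.F = 0 → IsEmpty (X.F →+* ℝ))) E
    (by
      intro H X ψ h hs hi
      rw [hE] at h
      refine ⟨h.1 X ψ hs.le, by rw [hi]; exact h.2.1, fun hK => ?_⟩
      exact Pool.Agent.THF.tc_of hc X.F ψ (fun g => by rw [hs]; exact h.2.2 hK g))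
    N hNo (Module.finrank ℚ K.F) (bP j (Module.finrank ℚ K.F)) hB hKm
  refine ⟨F, A, B, Y, Z, hF0, hFn, ?_, h1, h3⟩
  intro U hUT
  have h5 := hrel U hUT
  rw [Pi.sub_apply] at h5
  simp only [List.map_cons, List.sum_cons, List.map_append, List.sum_append]
  linarith

end Pool.Agent.TS
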