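import Pool.Agent.TS.P.Alg
import Pool.Agent.TS.C.Sgn
import Pool.Agent.TS.X.Exc
import Pool.Agent.TF2.F.Exc

/-!
# TS/P-Fin: exact signs, degrees divisible by `2 ^ (m + 1)`, bounded degrees

`alg_p` with `j = m + 1`, `sgn_rel`; the Hasse-Weil conjecture up to sign for all fields of degree
`≤ N` and with the exact sign over their quadratic extensions by `Pool.Agent.TF2.core_exc`.
-/

namespace Pool.Agent.TS

open NumberField IsDedekindDomain Pool.Agent.HWR Pool.Agent.QD Pool.Agent.LD Pool.Agent.MD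
  Pool.Agent.H73.AL Pool.Agent.TF2

theorem le_bdC (N m : ℕ) : N ≤ bdC N m := by
  have h3 : N ≤ bdA (N * 2 ^ (13 + 2 * m)) (m + 1) := by
    unfold bdA
    have h4 : N ≤ N * 2 ^ (13 + 2 * m) := Nat.le_mul_of_pos_right _ (by positivity)
    have h5 : N * 2 ^ (13 + 2 * m) ≤ (N * 2 ^ (13 + 2 * m)).factorial :=
      Nat.self_le_factorial _
    have h6 : (N * 2 ^ (13 + 2 * m)).factorial ≤ 2 * (N * 2 ^ (13 + 2 * m)).factorial := by
      omega
    refine (h4.trans (h5.trans h6)).trans ?_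
    have h7 : 0 < 2 ^ (2 * (N * 2 ^ (13 + 2 * m)).factorial) ^ 2 := by positivity
    exact (Nat.le_mul_of_pos_right _ h7).trans (Nat.le_mul_of_pos_left _ (by positivity))
  unfold bdC
  omega

theorem p_main {T : Finset ℕ} (hTp : ∀ p ∈ T, p.Prime)
    (hT : ∀ p : ℕ, p.Prime → p < 101 → p ∈ T) (D : LocData T) {a : ℕ → ℝ}
    (ha : ∀ q : ℕ, |a q| ≤ 2 * Real.sqrt q) (hfr : FrobRel T a) (V : Finset ℕ) (N m : ℕ)
    (hQ : D.HW a ℚ)
    (hR : 0 < m → ∀ (R : Type) [Field R] [NumberField R], InfinitePlace.nrComplexPlaces R = 0 →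
      Module.finrank ℚ R = 2 ^ m → D.HW a R ∧
      ∀ (F : Type) [Field F] [NumberField F] [Algebra R F], Module.finrank R F = 2 → D.HW a F)
    {k : ℕ} (X : Fin k → NF)
    (H : ∀ (F : Type) [Field F] [NumberField F], ThinV V T F → 2 ^ (m + 1) ∣ Module.finrank ℚ F →
      Module.finrank ℚ F ≤ bdC N m → (∀ i, IsEmpty (F ≃+* (X i).F)) → D.HW a F)
    (K : NF) (hK : bP (m + 1) (Module.finrank ℚ K.F) ≤ N)
    (hTR : ∀ (F : Type) [Field F] [NumberField F], InfinitePlace.nrComplexPlaces F = 0 →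
      Module.finrank ℚ F = Module.finrank ℚ K.F → D.HW a F)
    (hE : InfinitePlace.nrRealPlaces K.F = 0 ∨ ∀ (F : Type) [Field F] [NumberField F],
      EvV V T F → 2 ^ (m + 1) ∣ Module.finrank ℚ F → Module.finrank ℚ F ≤ N →
      (∀ i, IsEmpty (F ≃+* (X i).F)) → D.HW a F) : D.HW a K.F := by
  classical
  have hcore : ∀ (Y : Type) [Field Y] [NumberField Y], Module.finrank ℚ Y ≤ N → AllQ D a Y :=
    fun Y _ _ hY => core_exc hTp hT D ha hfr V N m hQ hR X H Y hY
  obtain ⟨V', hV, hX⟩ := exists_V V T (List.ofFn X)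
  have h2 : 2 ∈ T := hT 2 Nat.prime_two (by norm_num)
  obtain ⟨F, A, B, Y, Z, hF0, hFn, hrel, hYZ, hAB⟩ := alg_p V' hTp h2 (m + 1) K
  have hNb : N ≤ bdC N m := le_bdC N m
  have hKN : Module.finrank ℚ K.F ≤ N := (le_bP (m + 1) Module.finrank_pos).trans hK
  refine sgn_rel hTp hT D ha K F A B Y Z (hcore K.F hKN).1 (hTR F.F hF0 hFn) ?_ ?_ hrel
  · intro X1 hX1
    obtain ⟨-, h4, h5⟩ := hAB X1 hX1
    rcases h5 with ⟨h6, h7, h8⟩ | ⟨X0, inst, h6⟩
    · have hexc : ∀ i, IsEmpty (X1.F ≃+* (X i).F) := by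
        intro i
        refine ⟨fun e => ?_⟩
        exact hX X1 h6 (X i) (List.mem_ofFn.2 ⟨i, rfl⟩) ⟨e.symm⟩
      have h9 : EvV V T X1.F := fun p hp => h6 p (hV hp)
      rcases hE with hE | hE
      · exact H X1.F ⟨h8 hE, h9⟩ h7 ((h4.trans hK).trans hNb) hexc
      · exact hE X1.F h9 h7 (h4.trans hK) hexc
    · have h7 : Module.finrank ℚ X0.F ≤ N := by
        have h8 := Module.finrank_mul_finrank ℚ X0.F X1.F
        rw [h6] at h8
        have h9 := h4.trans hK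
        omega
      exact (hcore X0.F h7).2 X1.F h6
  · intro X1 hX1
    exact (hcore X1.F ((hYZ X1 hX1).2.trans hK)).1

end Pool.Agent.TS
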